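import Pool.Agent.H18.TE.Targets

/-! Row EQD of the board bkh_modules: the conjugates of a number are equidistributed among the
roots of a polynomial. -/

open Pool.Agent.H18.HIT
open Pool.Agent.H8.ZA (HFam Const NA sz)
open Pool.Agent.H8.TD
open Pool.Agent.H18.TE

namespace Pool.Agent.H78.BKH

theorem fix_coeff {K : IntermediateField ℚ Qb} (τ : Qb ≃ₐ[K] Qb) {x : Qb} (hx : x ∈ K) :
    τ x = x := τ.commutes (⟨x, hx⟩ : K)

theorem map_eq {K : IntermediateField ℚ Qb} (τ : Qb ≃ₐ[K] Qb) (P : Polynomial Qb)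
    (hP : ∀ j, P.coeff j ∈ K) : P.map (τ : Qb →+* Qb) = P := by
  ext j
  rw [Polynomial.coeff_map]
  exact fix_coeff τ (hP j)

theorem roots_eq {K : IntermediateField ℚ Qb} (τ : Qb ≃ₐ[K] Qb) (P : Polynomial Qb)
    (hP : ∀ j, P.coeff j ∈ K) : P.roots.map τ = P.roots := by
  have h1 := Polynomial.map_roots_le_of_injective P (f := (τ : Qb →+* Qb)) τ.injective
  rw [map_eq τ P hP] at h1
  exact Multiset.eq_of_le_of_card_le h1 (by rw [Multiset.card_map])

theorem pf_EQD : T_EQD := by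
  classical
  intro K Γ L hG P r₀ hP hPK hr₀ hPr hconj f
  have hP0 : P ≠ 0 := hP.ne_zero
  obtain ⟨R, hR⟩ : ∃ R, R = P.roots.toFinset := ⟨_, rfl⟩
  have hmemR : ∀ r, r ∈ R ↔ P.eval r = 0 := by
    intro r
    rw [hR, Multiset.mem_toFinset, Polynomial.mem_roots hP0]
    rfl
  have hcount : ∀ r ∈ R, P.roots.count r = P.roots.count r₀ := by
    intro r hr
    obtain ⟨τ, hτ⟩ := hconj r ((hmemR r).1 hr)
    have h1 := Multiset.count_map_eq_count' τ P.roots τ.injective r₀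
    rw [roots_eq τ P hPK, hτ] at h1
    exact h1
  have hev : ∀ (τ : Qb ≃ₐ[K] Qb), τ r₀ ∈ R := by
    intro τ
    have h1 : r₀ ∈ P.roots := (Polynomial.mem_roots hP0).2 hPr
    have h2 : τ r₀ ∈ P.roots.map τ := Multiset.mem_map_of_mem τ h1
    rw [roots_eq τ P hPK] at h2
    rw [hR]
    exact Multiset.mem_toFinset.2 h2
  have hnu : ∀ r ∈ R, (Γ.filter (fun σ => σ r₀ = r)).card =
      (Γ.filter (fun σ => σ r₀ = r₀)).card := by
    intro r hr
    obtain ⟨τ, hτ⟩ := hconj r ((hmemR r).1 hr)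
    obtain ⟨π, hπ⟩ := hG.perm τ
    symm
    refine Finset.card_bij (fun σ hσ => (π ⟨σ, (Finset.mem_filter.1 hσ).1⟩).1) ?_ ?_ ?_
    · intro σ hσ
      rw [Finset.mem_filter]
      refine ⟨(π ⟨σ, (Finset.mem_filter.1 hσ).1⟩).2, ?_⟩
      have h1 := hπ ⟨σ, (Finset.mem_filter.1 hσ).1⟩ r₀ hr₀
      rw [← h1]
      show τ (σ r₀) = r
      rw [(Finset.mem_filter.1 hσ).2, hτ]
    · intro σ hσ σ' hσ' h
      have h1 := π.injective (Subtype.ext h)
      exact congrArg Subtype.val h1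
    · intro σ' hσ'
      rw [Finset.mem_filter] at hσ'
      have h1 := hπ (π.symm ⟨σ', hσ'.1⟩) r₀ hr₀
      rw [Equiv.apply_symm_apply] at h1
      have h2 : τ ((π.symm ⟨σ', hσ'.1⟩ : Γ).1 r₀) = τ r₀ := by
        rw [h1, hτ]
        exact hσ'.2
      refine ⟨(π.symm ⟨σ', hσ'.1⟩).1, Finset.mem_filter.2
        ⟨(π.symm ⟨σ', hσ'.1⟩).2, τ.injective h2⟩, ?_⟩
      show (π ⟨(π.symm ⟨σ', hσ'.1⟩).1, _⟩).1 = σ'
      rw [Subtype.coe_eta, Equiv.apply_symm_apply]
  have e1 : (P.roots.map f).sum = (P.roots.count r₀ : ℝ) * ∑ r ∈ R, f r := by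
    rw [Finset.sum_multiset_map_count, ← hR, Finset.mul_sum]
    refine Finset.sum_congr rfl fun r hr => ?_
    rw [hcount r hr, nsmul_eq_mul]
  have e2 : (P.natDegree : ℝ) = (P.roots.count r₀ : ℝ) * R.card := by
    have h1 : P.roots.card = P.natDegree :=
      Polynomial.splits_iff_card_roots.1 (IsAlgClosed.splits P)
    have h2 := Multiset.toFinset_sum_count_eq P.roots
    rw [← hR, Finset.sum_congr rfl hcount, Finset.sum_const, smul_eq_mul] at h2
    rw [← h1, ← h2]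
    push_cast
    ring
  have e3 : ∑ σ ∈ Γ, f (σ r₀) = ((Γ.filter (fun σ => σ r₀ = r₀)).card : ℝ) * ∑ r ∈ R, f r := by
    rw [← Finset.sum_fiberwise_of_maps_to (g := fun σ : Qb ≃ₐ[K] Qb => σ r₀) (t := R)
      (fun σ _ => hev σ), Finset.mul_sum]
    refine Finset.sum_congr rfl fun r hr => ?_
    rw [← hnu r hr, ← nsmul_eq_mul, ← Finset.sum_const]
    exact Finset.sum_congr rfl fun σ hσ => by rw [(Finset.mem_filter.1 hσ).2]
  have e4 : (Γ.card : ℝ) = ((Γ.filter (fun σ => σ r₀ = r₀)).card : ℝ) * R.card := by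
    have h1 := Finset.card_eq_sum_card_fiberwise (f := fun σ : Qb ≃ₐ[K] Qb => σ r₀) (s := Γ)
      (t := R) (fun σ _ => hev σ)
    rw [Finset.sum_congr rfl hnu, Finset.sum_const, smul_eq_mul] at h1
    rw [h1]
    push_cast
    ring
  rw [e1, e2, e3, e4]
  ring

end Pool.Agent.H78.BKH
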